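import Mathlib

set_option autoImplicit false
open Filter Topology Finset

namespace Pool.Agent.Q265.BR

/-- diagonalisation -/
theorem diag (P : ℕ → ℕ → Prop) (h : ∀ k, ∀ᶠ n in atTop, P k n) :
    ∃ κ : ℕ → ℕ, Tendsto κ atTop atTop ∧ ∀ᶠ n in atTop, P (κ n) n := by
  classical
  have h' : ∀ k, ∃ N, ∀ n ≥ N, P k n := fun k => eventually_atTop.1 (h k)
  choose N hN using h'
  refine ⟨fun n => Nat.findGreatest (fun k => N k ≤ n) n, ?_, ?_⟩
  · rw [tendsto_atTop]
    intro b
    filter_upwards [eventually_ge_atTop (max b (N b))] with n hn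
    exact Nat.le_findGreatest (le_trans (le_max_left _ _) hn) (le_trans (le_max_right _ _) hn)
  · filter_upwards [eventually_ge_atTop (N 0)] with n hn
    have : N (Nat.findGreatest (fun k => N k ≤ n) n) ≤ n :=
      Nat.findGreatest_spec (P := fun k => N k ≤ n) (m := 0) (Nat.zero_le _) hn
    exact hN _ _ this

theorem bdd_of_eventually {x : ℕ → ℝ} {C : ℝ} (h : ∀ᶠ n in atTop, x n ≤ C) :
    ∃ C' : ℝ, ∀ n, x n ≤ C' := by
  obtain ⟨N, hN⟩ := eventually_atTop.1 h
  refine ⟨max C (∑ i ∈ range N, |x i|), fun n => ?_⟩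
  by_cases hn : N ≤ n
  · exact le_trans (hN n hn) (le_max_left _ _)
  · refine le_trans ?_ (le_max_right _ _)
    have : n ∈ range N := by simpa using hn
    exact le_trans (le_abs_self _) (Finset.single_le_sum (f := fun i => |x i|) (fun i _ => abs_nonneg _) this)

section count

variable {V W : Type} [Fintype V] [DecidableEq V] [Fintype W] [DecidableEq W]

theorem hom_count {n : ℕ} (F : V → V → Prop) (R : W → W → Prop) (c : Fin n → W) :
    Set.ncard {f : V → Fin n | ∀ i j, F i j → R (c (f i)) (c (f j))} =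
      ∑ φ ∈ (Set.toFinite {φ : V → W | ∀ i j, F i j → R (φ i) (φ j)}).toFinset,
        ∏ v, (Finset.univ.filter (fun x : Fin n => c x = φ v)).card := by
  classical
  set S : Finset (V → W) := (Set.toFinite {φ : V → W | ∀ i j, F i j → R (φ i) (φ j)}).toFinset with hS
  set T : Finset (V → Fin n) := Finset.univ.filter (fun f => ∀ i j, F i j → R (c (f i)) (c (f j))) with hT
  have h1 : Set.ncard {f : V → Fin n | ∀ i j, F i j → R (c (f i)) (c (f j))} = T.card := by
    rw [← Set.ncard_coe_finset]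
    congr 1
    ext f
    simp [hT]
  rw [h1]
  have hmap : ∀ f ∈ T, (fun v => c (f v)) ∈ S := by
    intro f hf
    simp only [hT, Finset.mem_filter, Finset.mem_univ, true_and] at hf
    simpa [hS] using hf
  rw [Finset.card_eq_sum_card_fiberwise hmap]
  refine Finset.sum_congr rfl (fun φ hφ => ?_)
  rw [← Fintype.card_piFinset]
  congr 1
  ext f
  simp only [hT, Finset.mem_filter, Finset.mem_univ, true_and, Fintype.mem_piFinset]
  constructor
  · rintro ⟨_, h⟩ v
    exact congrFun h v
  · intro h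
    have h2 : (fun v => c (f v)) = φ := funext h
    refine ⟨?_, h2⟩
    have h3 : φ ∈ S := hφ
    simp only [hS, Set.Finite.mem_toFinset, Set.mem_ofPred_eq] at h3
    intro i j hij
    rw [h i, h j]
    exact h3 i j hij

theorem emb_le {n : ℕ} (F : V → V → Prop) (R : W → W → Prop) (c : Fin n → W) (q : ℕ)
    (hq : ∀ w, (Finset.univ.filter (fun x : Fin n => c x = w)).card ≤ q + 1) :
    Set.ncard {f : V → Fin n | Function.Injective f ∧ ∀ i j, F i j → R (c (f i)) (c (f j))} ≤
      Set.ncard {φ : V → W | ∀ i j, F i j → R (φ i) (φ j)} * (q + 1) ^ (Fintype.card V) := by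
  classical
  refine le_trans (Set.ncard_le_ncard (t := {f : V → Fin n | ∀ i j, F i j → R (c (f i)) (c (f j))})
    (fun f hf => hf.2) (Set.toFinite _)) ?_
  rw [hom_count]
  rw [Set.ncard_eq_toFinset_card _ (Set.toFinite {φ : V → W | ∀ i j, F i j → R (φ i) (φ j)})]
  rw [← smul_eq_mul]
  refine Finset.sum_le_card_nsmul _ _ _ (fun φ _ => ?_)
  calc ∏ v, (Finset.univ.filter (fun x : Fin n => c x = φ v)).card ≤ ∏ _v : V, (q+1) :=
        Finset.prod_le_prod' (fun v _ => hq _)
    _ = (q+1) ^ (Fintype.card V) := by simp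

theorem le_emb {n : ℕ} (F : V → V → Prop) (R : W → W → Prop) (c : Fin n → W) (q : ℕ)
    (hq : ∀ w, q ≤ (Finset.univ.filter (fun x : Fin n => c x = w)).card) :
      Set.ncard {φ : V → W | ∀ i j, F i j → R (φ i) (φ j)} * q ^ (Fintype.card V) ≤
    Set.ncard {f : V → Fin n | Function.Injective f ∧ ∀ i j, F i j → R (c (f i)) (c (f j))} +
      (n ^ (Fintype.card V) - n.descFactorial (Fintype.card V)) := by
  classical
  have h1 : Set.ncard {φ : V → W | ∀ i j, F i j → R (φ i) (φ j)} * q ^ (Fintype.card V) ≤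
      Set.ncard {f : V → Fin n | ∀ i j, F i j → R (c (f i)) (c (f j))} := by
    rw [hom_count]
    rw [Set.ncard_eq_toFinset_card _ (Set.toFinite {φ : V → W | ∀ i j, F i j → R (φ i) (φ j)})]
    rw [← smul_eq_mul]
    refine Finset.card_nsmul_le_sum _ _ _ (fun φ _ => ?_)
    calc q ^ (Fintype.card V) = ∏ _v : V, q := by simp
      _ ≤ ∏ v, (Finset.univ.filter (fun x : Fin n => c x = φ v)).card :=
        Finset.prod_le_prod' (fun v _ => hq _)
  refine le_trans h1 ?_
  have h2 : {f : V → Fin n | ∀ i j, F i j → R (c (f i)) (c (f j))} ⊆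
      {f : V → Fin n | Function.Injective f ∧ ∀ i j, F i j → R (c (f i)) (c (f j))} ∪
      {f : V → Fin n | ¬ Function.Injective f} := by
    intro f hf
    by_cases h : Function.Injective f
    · exact Or.inl ⟨h, hf⟩
    · exact Or.inr h
  refine le_trans (Set.ncard_le_ncard h2 (Set.toFinite _)) ?_
  refine le_trans (Set.ncard_union_le _ _) ?_
  refine Nat.add_le_add_left ?_ _
  have h3 : Set.ncard {f : V → Fin n | Function.Injective f} = n.descFactorial (Fintype.card V) := by
    have := Fintype.card_embedding_eq (α := V) (β := Fin n)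
    rw [Fintype.card_fin] at this
    rw [← this, ← Nat.card_eq_fintype_card, ← Nat.card_coe_set_eq]
    exact Nat.card_congr (Equiv.subtypeInjectiveEquivEmbedding V (Fin n))
  have h4 : Set.ncard {f : V → Fin n | ¬ Function.Injective f} + Set.ncard {f : V → Fin n | Function.Injective f}
      = n ^ (Fintype.card V) := by
    have := Set.ncard_add_ncard_compl {f : V → Fin n | Function.Injective f} (Set.toFinite _) (Set.toFinite _)
    rw [add_comm]
    have h5 : Nat.card (V → Fin n) = n ^ (Fintype.card V) := by simp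
    rw [← h5, ← this]
    rfl
  omega

end count

/-- asymptotics: fixed number `N` of classes -/
theorem limit_lemma (r N : ℕ) (hN : 0 < N) (h : ℕ) (p : ℝ) (hp : 0 < p) (e : ℕ) (x : ℕ → ℕ)
    (hu : ∀ n, x n ≤ h * (n / N + 1) ^ r)
    (hl : ∀ n, h * (n / N) ^ r ≤ x n + (n ^ r - n.descFactorial r)) :
    Tendsto (fun n : ℕ => (x n : ℝ) / ((n.descFactorial r : ℝ) * p ^ e)) atTop
      (𝓝 ((h : ℝ) / ((N : ℝ) ^ r * p ^ e))) := by
  have hNR : (0 : ℝ) < N := by exact_mod_cast hN
  -- descFactorial n r / n^r → 1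
  have hdf : Tendsto (fun n : ℕ => (n.descFactorial r : ℝ) / (n : ℝ) ^ r) atTop (𝓝 1) := by
    clear hu hl
    induction r with
    | zero => simp
    | succ r ih =>
      have h1 : Tendsto (fun n : ℕ => ((n : ℝ) - r) / n) atTop (𝓝 1) := by
        have h2 : Tendsto (fun n : ℕ => 1 - (r : ℝ) / n) atTop (𝓝 (1 - 0)) :=
          tendsto_const_nhds.sub (tendsto_const_div_atTop_nhds_zero_nat _)
        rw [sub_zero] at h2
        refine h2.congr' ?_
        filter_upwards [eventually_gt_atTop 0] with n hn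
        have : (n : ℝ) ≠ 0 := by exact_mod_cast hn.ne'
        field_simp
      have h3 := h1.mul ih
      rw [mul_one] at h3
      refine h3.congr' ?_
      filter_upwards [eventually_ge_atTop (r + 1)] with n hn
      have : (n : ℝ) ≠ 0 := by
        have : 0 < n := by omega
        exact_mod_cast this.ne'
      rw [Nat.descFactorial_succ]
      push_cast [Nat.cast_sub (show r ≤ n by omega)]
      field_simp
      ring
  have hq : Tendsto (fun n : ℕ => ((n / N : ℕ) : ℝ) / n) atTop (𝓝 (1 / (N : ℝ))) := by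
    have h1 : Tendsto (fun n : ℕ => 1 / (N : ℝ) - 1 / (n : ℝ)) atTop (𝓝 (1 / (N : ℝ) - 0)) :=
      tendsto_const_nhds.sub tendsto_one_div_atTop_nhds_zero_nat
    rw [sub_zero] at h1
    refine tendsto_of_tendsto_of_tendsto_of_le_of_le' h1 tendsto_const_nhds ?_ ?_
    · filter_upwards [eventually_gt_atTop 0] with n hn
      have hnR : (0 : ℝ) < n := by exact_mod_cast hn
      have h2 : (n : ℝ) / N - 1 ≤ ((n / N : ℕ) : ℝ) := by
        have h3 : n < N * (n / N + 1) := Nat.lt_mul_div_succ n hN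
        have h4 : (n : ℝ) < N * (((n / N : ℕ) : ℝ) + 1) := by exact_mod_cast h3
        rw [sub_le_iff_le_add, div_le_iff₀ hNR]
        nlinarith
      rw [le_div_iff₀ hnR]
      have : (1 / (N : ℝ) - 1 / (n : ℝ)) * n = (n : ℝ) / N - 1 := by field_simp
      rw [this]
      exact h2
    · filter_upwards [eventually_gt_atTop 0] with n hn
      have hnR : (0 : ℝ) < n := by exact_mod_cast hn
      rw [div_le_div_iff₀ hnR hNR]
      have : n / N * N ≤ n := Nat.div_mul_le_self n N
      have : ((n / N : ℕ) : ℝ) * N ≤ n := by exact_mod_cast this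
      linarith
  have hq1 : Tendsto (fun n : ℕ => (((n / N : ℕ) : ℝ) + 1) / n) atTop (𝓝 (1 / (N : ℝ))) := by
    have := hq.add tendsto_one_div_atTop_nhds_zero_nat
    rw [add_zero] at this
    refine this.congr (fun n => ?_)
    ring
  -- x n / n^r
  have hx : Tendsto (fun n : ℕ => (x n : ℝ) / (n : ℝ) ^ r) atTop (𝓝 ((h : ℝ) * (1 / (N : ℝ)) ^ r)) := by
    have hlow : Tendsto (fun n : ℕ => (h : ℝ) * (((n / N : ℕ) : ℝ) / n) ^ r -
        (1 - (n.descFactorial r : ℝ) / (n : ℝ) ^ r)) atTop (𝓝 ((h : ℝ) * (1 / (N : ℝ)) ^ r - (1 - 1))) :=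
      ((hq.pow r).const_mul _).sub (tendsto_const_nhds.sub hdf)
    rw [sub_self, sub_zero] at hlow
    have hup : Tendsto (fun n : ℕ => (h : ℝ) * ((((n / N : ℕ) : ℝ) + 1) / n) ^ r) atTop
        (𝓝 ((h : ℝ) * (1 / (N : ℝ)) ^ r)) := (hq1.pow r).const_mul _
    refine tendsto_of_tendsto_of_tendsto_of_le_of_le' hlow hup ?_ ?_
    · filter_upwards [eventually_gt_atTop 0] with n hn
      have hnR : (0 : ℝ) < (n : ℝ) ^ r := by positivity
      have h1 := hl n
      have h2 : n.descFactorial r ≤ n ^ r := Nat.descFactorial_le_pow n r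
      have h3 : (h : ℝ) * ((n / N : ℕ) : ℝ) ^ r ≤ x n + ((n : ℝ) ^ r - n.descFactorial r) := by
        have : ((h * (n / N) ^ r : ℕ) : ℝ) ≤ ((x n + (n ^ r - n.descFactorial r) : ℕ) : ℝ) := by
          exact_mod_cast h1
        push_cast [Nat.cast_sub h2] at this
        exact this
      rw [le_div_iff₀ hnR]
      have h4 : ((h : ℝ) * (((n / N : ℕ) : ℝ) / n) ^ r - (1 - (n.descFactorial r : ℝ) / (n : ℝ) ^ r)) * (n : ℝ) ^ r
          = (h : ℝ) * ((n / N : ℕ) : ℝ) ^ r - ((n : ℝ) ^ r - n.descFactorial r) := by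
        rw [div_pow]
        field_simp
      rw [h4]
      linarith
    · filter_upwards [eventually_gt_atTop 0] with n hn
      have hnR : (0 : ℝ) < (n : ℝ) ^ r := by positivity
      rw [div_pow, ← mul_div_assoc]
      apply div_le_div_of_nonneg_right _ hnR.le
      exact_mod_cast hu n
  have h5 : Tendsto (fun n : ℕ => ((x n : ℝ) / (n : ℝ) ^ r) / (((n.descFactorial r : ℝ) / (n : ℝ) ^ r) * p ^ e)) atTop
      (𝓝 (((h : ℝ) * (1 / (N : ℝ)) ^ r) / (1 * p ^ e))) := by
    refine hx.div (hdf.mul_const _) ?_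
    positivity
  have h6 : ((h : ℝ) * (1 / (N : ℝ)) ^ r) / (1 * p ^ e) = (h : ℝ) / ((N : ℝ) ^ r * p ^ e) := by
    rw [one_div, inv_pow]
    field_simp
  rw [h6] at h5
  refine h5.congr' ?_
  filter_upwards [eventually_ge_atTop (r + 1)] with n hn
  have hnR : (n : ℝ) ^ r ≠ 0 := by
    have : (n : ℝ) ≠ 0 := by
      have : 0 < n := by omega
      exact_mod_cast this.ne'
    positivity
  have h7 : (n.descFactorial r : ℝ) ≠ 0 := by
    have := (Nat.descFactorial_pos (n := n) (k := r)).2 (by omega)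
    positivity
  field_simp

end Pool.Agent.Q265.BR
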