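import Pool.Agent.Q265.BR.Count

set_option autoImplicit false
open Filter Topology Finset

namespace Pool.Agent.Q265.BR

section pow
variable {V : Type} [Fintype V] [DecidableEq V]

/-- homs to a tensor power of `K_m` -/
theorem hom_pow (F : V → V → Prop) (K m : ℕ) :
    Set.ncard {φ : V → (Fin K → Fin m) | ∀ i j, F i j → ∀ k, φ i k ≠ φ j k} =
      Set.ncard {φ : V → Fin m | ∀ i j, F i j → φ i ≠ φ j} ^ K := by
  classical
  rw [← Nat.card_coe_set_eq, ← Nat.card_coe_set_eq]
  have e : {φ : V → (Fin K → Fin m) | ∀ i j, F i j → ∀ k, φ i k ≠ φ j k} ≃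
      (Fin K → {φ : V → Fin m | ∀ i j, F i j → φ i ≠ φ j}) :=
    { toFun := fun φ k => ⟨fun v => φ.1 v k, fun i j h => φ.2 i j h k⟩
      invFun := fun ψ => ⟨fun v k => (ψ k).1 v, fun i j h k => (ψ k).2 i j h⟩
      left_inv := fun φ => rfl
      right_inv := fun ψ => rfl }
  rw [Nat.card_congr e]
  simp

end pow

/-- homs of `K_2` -/
theorem hom_K2 (m : ℕ) :
    Set.ncard {φ : Fin 2 → Fin m | ∀ i j, (⊤ : SimpleGraph (Fin 2)).Adj i j → φ i ≠ φ j} = m * (m - 1) := by
  classical
  have : {φ : Fin 2 → Fin m | ∀ i j, (⊤ : SimpleGraph (Fin 2)).Adj i j → φ i ≠ φ j} =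
      {φ : Fin 2 → Fin m | Function.Injective φ} := by
    ext φ
    simp only [SimpleGraph.top_adj, Set.mem_ofPred_eq]
    constructor
    · intro h i j hij
      by_contra hne
      exact h i j hne hij
    · intro h i j hne heq
      exact hne (h heq)
  rw [this]
  have := Fintype.card_embedding_eq (α := Fin 2) (β := Fin m)
  rw [← Nat.card_eq_fintype_card, ← Nat.card_congr (Equiv.subtypeInjectiveEquivEmbedding (Fin 2) (Fin m))] at this
  rw [← Nat.card_coe_set_eq]
  refine this.trans ?_
  simp [Nat.descFactorial]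
  ring

theorem c3_adj : ∀ i j : Fin 3, i ≠ j → (SimpleGraph.cycleGraph 3).Adj i j := by decide

theorem hom_C3 (m : ℕ) :
    Set.ncard {φ : Fin 3 → Fin m | ∀ i j, (SimpleGraph.cycleGraph 3).Adj i j → φ i ≠ φ j} = m * (m - 1) * (m - 2) := by
  classical
  have : {φ : Fin 3 → Fin m | ∀ i j, (SimpleGraph.cycleGraph 3).Adj i j → φ i ≠ φ j} =
      {φ : Fin 3 → Fin m | Function.Injective φ} := by
    ext φ
    simp only [Set.mem_ofPred_eq]
    constructor
    · intro h i j hij
      by_contra hne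
      exact h i j (c3_adj i j hne) hij
    · intro h i j hne heq
      exact hne.ne (h heq)
  rw [this]
  have := Fintype.card_embedding_eq (α := Fin 3) (β := Fin m)
  rw [← Nat.card_eq_fintype_card, ← Nat.card_congr (Equiv.subtypeInjectiveEquivEmbedding (Fin 3) (Fin m))] at this
  rw [← Nat.card_coe_set_eq]
  refine this.trans ?_
  simp [Nat.descFactorial]
  ring

/-- homs of `K_{s,t}` -/
theorem hom_Kst (s t m : ℕ) :
    Set.ncard {φ : Fin s ⊕ Fin t → Fin m | ∀ i j, (completeBipartiteGraph (Fin s) (Fin t)).Adj i j → φ i ≠ φ j} =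
      ∑ x : Fin s → Fin m, (m - (univ.image x).card) ^ t := by
  classical
  rw [← Nat.card_coe_set_eq]
  have e : {φ : Fin s ⊕ Fin t → Fin m | ∀ i j, (completeBipartiteGraph (Fin s) (Fin t)).Adj i j → φ i ≠ φ j} ≃
      Σ x : Fin s → Fin m, (Fin t → {y : Fin m // y ∉ univ.image x}) :=
    { toFun := fun φ => ⟨fun i => φ.1 (Sum.inl i), fun j => ⟨φ.1 (Sum.inr j), by
        intro h
        rw [Finset.mem_image] at h
        obtain ⟨i, _, hi⟩ := h
        exact φ.2 (Sum.inl i) (Sum.inr j) (by simp [completeBipartiteGraph]) hi⟩⟩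
      invFun := fun ψ => ⟨Sum.elim ψ.1 (fun j => (ψ.2 j).1), by
        intro i j h
        rcases i with i | i <;> rcases j with j | j
        · simp [completeBipartiteGraph] at h
        · intro heq
          apply (ψ.2 j).2
          rw [Finset.mem_image]
          exact ⟨i, Finset.mem_univ _, heq⟩
        · intro heq
          apply (ψ.2 i).2
          rw [Finset.mem_image]
          exact ⟨j, Finset.mem_univ _, heq.symm⟩
        · simp [completeBipartiteGraph] at h⟩
      left_inv := fun φ => by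
        ext v
        rcases v with v | v <;> rfl
      right_inv := fun ψ => rfl }
  rw [Nat.card_congr e, Nat.card_eq_fintype_card, Fintype.card_sigma]
  refine Finset.sum_congr rfl (fun x _ => ?_)
  rw [Fintype.card_fun, Fintype.card_fin]
  congr 1
  rw [Fintype.card_subtype_compl (fun y => y ∈ univ.image x), Fintype.card_fin, Fintype.card_coe]

def g4 : Fin 4 → Fin 2 ⊕ Fin 2 := ![Sum.inl 0, Sum.inr 0, Sum.inl 1, Sum.inr 1]
def g4' : Fin 2 ⊕ Fin 2 → Fin 4 := Sum.elim ![0, 2] ![1, 3]

theorem c4_adj : ∀ i j : Fin 4, (SimpleGraph.cycleGraph 4).Adj i j ↔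
    ((g4 i).isLeft ∧ (g4 j).isRight) ∨ ((g4 i).isRight ∧ (g4 j).isLeft) := by
  decide

theorem g4_left : ∀ i, g4' (g4 i) = i := by decide
theorem g4_right : ∀ i, g4 (g4' i) = i := by decide

/-- homs of `C_4` -/
theorem hom_C4 (m : ℕ) (hm : 1 ≤ m) :
    Set.ncard {φ : Fin 4 → Fin m | ∀ i j, (SimpleGraph.cycleGraph 4).Adj i j → φ i ≠ φ j} =
      m * (m - 1) ^ 2 + m * (m - 1) * (m - 2) ^ 2 := by
  classical
  -- C4 = K_{2,2}
  have h1 : Set.ncard {φ : Fin 4 → Fin m | ∀ i j, (SimpleGraph.cycleGraph 4).Adj i j → φ i ≠ φ j} =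
     Set.ncard {φ : Fin 2 ⊕ Fin 2 → Fin m | ∀ i j, (completeBipartiteGraph (Fin 2) (Fin 2)).Adj i j → φ i ≠ φ j} := by
    let g := g4
    let g' := g4'
    have hg : ∀ i, g' (g i) = i := g4_left
    have hg' : ∀ i, g (g' i) = i := g4_right
    have ha : ∀ i j, (SimpleGraph.cycleGraph 4).Adj i j ↔ (completeBipartiteGraph (Fin 2) (Fin 2)).Adj (g i) (g j) :=
      c4_adj
    rw [← Nat.card_coe_set_eq, ← Nat.card_coe_set_eq]
    refine Nat.card_congr
      { toFun := fun φ => ⟨fun v => φ.1 (g' v), fun i j h => φ.2 _ _ ((ha _ _).2 (by rw [hg', hg']; exact h))⟩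
        invFun := fun φ => ⟨fun v => φ.1 (g v), fun i j h => φ.2 _ _ ((ha _ _).1 h)⟩
        left_inv := fun φ => by ext v; simp [hg]
        right_inv := fun φ => by ext v; simp [hg'] }
  rw [h1, hom_Kst]
  have h2 : ∀ x : Fin 2 → Fin m, (m - (univ.image x).card) ^ 2 = if x 0 = x 1 then (m-1)^2 else (m-2)^2 := by
    intro x
    have : (univ.image x) = {x 0, x 1} := by
      ext y
      simp [Finset.mem_image, Fin.exists_fin_two, eq_comm]
    rw [this]
    split_ifs with h
    · rw [h]; simp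
    · rw [Finset.card_pair h]
  rw [Finset.sum_congr rfl (fun x _ => h2 x)]
  rw [Finset.sum_ite]
  simp only [Finset.sum_const, smul_eq_mul]
  have h3 : (univ.filter (fun x : Fin 2 → Fin m => x 0 = x 1)).card = m := by
    have : (univ.filter (fun x : Fin 2 → Fin m => x 0 = x 1)) = univ.image (fun (y : Fin m) => (fun _ => y : Fin 2 → Fin m)) := by
      ext x
      simp only [Finset.mem_filter, Finset.mem_univ, true_and, Finset.mem_image]
      constructor
      · intro h
        refine ⟨x 0, ?_⟩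
        ext i
        fin_cases i
        · rfl
        · simp [h]
      · rintro ⟨y, rfl⟩
        rfl
    rw [this, Finset.card_image_of_injective]
    · simp
    · intro a b h
      exact congrFun h 0
  have h4 : (univ.filter (fun x : Fin 2 → Fin m => ¬ x 0 = x 1)).card = m * (m - 1) := by
    have := Finset.card_filter_add_card_filter_not (s := (univ : Finset (Fin 2 → Fin m))) (fun x => x 0 = x 1)
    rw [h3] at this
    simp only [Finset.card_univ, Fintype.card_fun, Fintype.card_fin] at this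
    have h5 : m ^ 2 = m + m * (m-1) := by
      obtain ⟨k, rfl⟩ : ∃ k, m = k + 1 := ⟨m - 1, by omega⟩
      simp
      ring
    omega
  rw [h3, h4]

end Pool.Agent.Q265.BR
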