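import Pool.Agent.Q265.BR.Hom

set_option autoImplicit false
open Filter Topology Finset

namespace Pool.Agent.Q265.BR

/-- exponent -/
def KK (k : ℕ) : ℕ := (k + 1) ^ 2

def NN (k : ℕ) : ℕ := (k + 2) ^ KK k

theorem KK_pos (k : ℕ) : 0 < KK k := by unfold KK; positivity

theorem NN_pos (k : ℕ) : 0 < NN k := by unfold NN; positivity

def cls (k n : ℕ) (v : Fin n) : Fin (KK k) → Fin (k + 2) :=
  finFunctionFinEquiv.symm ⟨v.1 % NN k, Nat.mod_lt _ (NN_pos k)⟩

theorem fiber (k n : ℕ) (w : Fin (KK k) → Fin (k+2)) :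
    (Finset.univ.filter (fun x : Fin n => cls k n x = w)).card =
      n.count (· ≡ (finFunctionFinEquiv w).1 [MOD NN k]) := by
  rw [Nat.count_eq_card_filter_range]
  refine Finset.card_nbij (fun x => x.1) ?_ ?_ ?_
  · intro x hx
    simp only [Finset.coe_filter, Finset.mem_univ, true_and, Set.mem_ofPred_eq, Finset.mem_range] at hx ⊢
    refine ⟨x.2, ?_⟩
    have h1 : (⟨x.1 % NN k, Nat.mod_lt _ (NN_pos k)⟩ : Fin ((k+2)^ KK k)) = finFunctionFinEquiv w := by
      rw [← hx]
      exact (Equiv.apply_symm_apply _ _).symm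
    have h2 := congrArg Fin.val h1
    simp only at h2
    unfold Nat.ModEq
    rw [← h2, Nat.mod_mod]
  · intro x _ y _ h
    exact Fin.ext h
  · intro x hx
    simp only [Finset.coe_filter, Finset.mem_univ, true_and, Set.mem_ofPred_eq, Finset.mem_range, Set.mem_image] at hx ⊢
    refine ⟨⟨x, hx.1⟩, ?_, rfl⟩
    unfold cls
    rw [Equiv.symm_apply_eq]
    apply Fin.ext
    have h3 := hx.2
    unfold Nat.ModEq at h3
    simp only
    rw [h3]
    exact Nat.mod_eq_of_lt (finFunctionFinEquiv w).2

theorem fiber_bounds (k n : ℕ) (w : Fin (KK k) → Fin (k+2)) :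
    n / NN k ≤ (Finset.univ.filter (fun x : Fin n => cls k n x = w)).card ∧
    (Finset.univ.filter (fun x : Fin n => cls k n x = w)).card ≤ n / NN k + 1 := by
  rw [fiber, Nat.count_modEq_card _ (NN_pos k)]
  split_ifs <;> omega

/-- the graph -/
def GG (k n : ℕ) : SimpleGraph (Fin n) where
  Adj v w := ∀ l, cls k n v l ≠ cls k n w l
  symm := ⟨fun v w h l => (h l).symm⟩
  loopless := ⟨fun v h => h ⟨0, KK_pos k⟩ rfl⟩

noncomputable def pp (k : ℕ) : ℝ := (((k : ℝ) + 1) / (k + 2)) ^ KK k

theorem pp_pos (k : ℕ) : 0 < pp k := by unfold pp; positivity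

theorem pp_le_one (k : ℕ) : pp k ≤ 1 := by
  unfold pp
  apply pow_le_one₀ (by positivity)
  rw [div_le_one (by positivity)]
  linarith

section
variable {V : Type} [Fintype V] [DecidableEq V]

noncomputable def cnt (F : V → V → Prop) (k n : ℕ) : ℕ :=
  Set.ncard {f : V → Fin n | Function.Injective f ∧ ∀ i j, F i j → (GG k n).Adj (f i) (f j)}

noncomputable def ratio (F : V → V → Prop) (e k : ℕ) : ℝ :=
  ((Set.ncard {φ : V → Fin (k+2) | ∀ i j, F i j → φ i ≠ φ j} : ℕ) : ℝ) /
    (((k : ℝ) + 2) ^ (Fintype.card V) * ((((k : ℝ) + 1) / (k + 2))) ^ e)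

theorem tendsto_cnt (F : V → V → Prop) (r : ℕ) (hr : Fintype.card V = r) (e k : ℕ) :
    Tendsto (fun n : ℕ => (cnt F k n : ℝ) / ((n.descFactorial r : ℝ) * pp k ^ e)) atTop
      (𝓝 (ratio F e k ^ KK k)) := by
  subst hr
  have h1 := limit_lemma (Fintype.card V) (NN k) (NN_pos k)
    (Set.ncard {φ : V → (Fin (KK k) → Fin (k+2)) | ∀ i j, F i j → ∀ l, φ i l ≠ φ j l})
    (pp k) (pp_pos k) e (fun n => cnt F k n)
    (fun n => emb_le F (fun a b => ∀ l, a l ≠ b l) (cls k n) (n / NN k) (fun w => (fiber_bounds k n w).2))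
    (fun n => le_emb F (fun a b => ∀ l, a l ≠ b l) (cls k n) (n / NN k) (fun w => (fiber_bounds k n w).1))
  convert h1 using 2
  rw [hom_pow]
  unfold ratio pp NN
  rw [div_pow, mul_pow]
  push_cast
  congr 1
  rw [← pow_mul, ← pow_mul, ← pow_mul, ← pow_mul, mul_comm (Fintype.card V), mul_comm e]

end

theorem ratio_K2 (k : ℕ) : ratio (fun i j => (⊤ : SimpleGraph (Fin 2)).Adj i j) 1 k = 1 := by
  unfold ratio
  rw [hom_K2]
  have : k + 2 - 1 = k + 1 := rfl
  rw [this]
  push_cast
  simp only [Fintype.card_fin]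
  field_simp

theorem ratio_C3 (k : ℕ) : ratio (fun i j => (SimpleGraph.cycleGraph 3).Adj i j) 3 k = 1 - 1 / ((k : ℝ) + 1) ^ 2 := by
  unfold ratio
  rw [hom_C3]
  have : k + 2 - 1 = k + 1 := rfl
  rw [this]
  have : k + 2 - 2 = k := rfl
  rw [this]
  push_cast
  simp only [Fintype.card_fin]
  field_simp
  ring

theorem ratio_C4 (k : ℕ) : ratio (fun i j => (SimpleGraph.cycleGraph 4).Adj i j) 4 k = 1 + 1 / ((k : ℝ) + 1) ^ 3 := by
  unfold ratio
  rw [hom_C4 _ (by omega)]
  have : k + 2 - 1 = k + 1 := rfl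
  rw [this]
  have : k + 2 - 2 = k := rfl
  rw [this]
  push_cast
  simp only [Fintype.card_fin]
  field_simp
  ring

theorem ratio_Kst (s t k : ℕ) (hs : 1 ≤ s) :
    ratio (fun i j => (completeBipartiteGraph (Fin s) (Fin t)).Adj i j) (s * t) k ≤
      1 + (2 : ℝ) ^ (s * t) * (s ^ 3 * t) / ((k : ℝ) + 1) ^ 2 := by
  classical
  unfold ratio
  rw [hom_Kst]
  have hk2 : (0 : ℝ) < (k : ℝ) + 2 := by positivity
  set m : ℝ := (k : ℝ) + 2 with hm
  have hm2 : (2 : ℝ) ≤ m := by rw [hm]; linarith [Nat.cast_nonneg (α := ℝ) k]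
  -- normalise
  have hb : ((k : ℝ) + 1) / m = 1 - 1 / m := by
    rw [hm]; field_simp; ring
  rw [hb]
  -- trivial regime vs main regime
  have hden : (0 : ℝ) < (1 - 1 / m) ^ (s * t) := by
    have : (0 : ℝ) < 1 - 1 / m := by
      rw [sub_pos, div_lt_one hk2]; linarith
    positivity
  have hden2 : (1 : ℝ) / 2 ^ (s * t) ≤ (1 - 1 / m) ^ (s * t) := by
    rw [← one_div_pow]
    apply pow_le_pow_left₀ (by norm_num)
    have : 1 / m ≤ 1 / 2 := one_div_le_one_div_of_le (by norm_num) hm2
    linarith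
  have hcard : Fintype.card (Fin s ⊕ Fin t) = s + t := by simp
  rw [hcard]
  -- sum
  push_cast
  have hsum : (∑ x : Fin s → Fin (k+2), (((k + 2 - (univ.image x).card : ℕ) : ℝ)) ^ t) ≤
      m ^ s * m ^ t * (max 0 (1 - s / m)) ^ t + (m ^ s - ((k+2).descFactorial s : ℝ)) * (m ^ t * min 1 ((t : ℝ) * s / m)) := by
    have hx : ∀ x : Fin s → Fin (k+2), (((k + 2 - (univ.image x).card : ℕ) : ℝ)) ^ t ≤
        m ^ t * (max 0 (1 - s / m)) ^ t + (if Function.Injective x then 0 else m ^ t * min 1 ((t : ℝ) * s / m)) := by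
      intro x
      have hmpos : (0 : ℝ) ≤ m := by positivity
      split_ifs with hinj
      · rw [Finset.card_image_of_injective _ hinj, Finset.card_univ, Fintype.card_fin, add_zero, ← mul_pow]
        apply pow_le_pow_left₀ (Nat.cast_nonneg _)
        rw [mul_max_of_nonneg _ _ hmpos, mul_zero]
        by_cases h : s ≤ k + 2
        · apply le_max_of_le_right
          rw [Nat.cast_sub h]
          push_cast
          rw [hm]
          field_simp
          linarith
        · apply le_max_of_le_left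
          have : k + 2 - s = 0 := by omega
          rw [this]
          simp
      · have h1 : (((k + 2 - (univ.image x).card : ℕ) : ℝ)) ^ t ≤ m ^ t := by
          apply pow_le_pow_left₀ (Nat.cast_nonneg _)
          have : k + 2 - (univ.image x).card ≤ k + 2 := Nat.sub_le _ _
          have h2 : (((k + 2 - (univ.image x).card : ℕ) : ℝ)) ≤ ((k + 2 : ℕ) : ℝ) := by exact_mod_cast this
          rw [hm]
          push_cast at h2
          exact h2
        rcases le_total ((t : ℝ) * s / m) 1 with hts | hts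
        · rw [min_eq_right hts]
          have h3 : (1 : ℝ) ≤ (max 0 (1 - s / m)) ^ t + (t : ℝ) * s / m := by
            rcases le_total (0 : ℝ) (1 - s / m) with h0 | h0
            · rw [max_eq_right h0]
              have h4 := one_add_mul_le_pow (a := -((s : ℝ) / m)) (by
                have : (s : ℝ) / m ≤ 1 := by linarith
                linarith) t
              have h5 : (1 : ℝ) + -((s : ℝ)/m) = 1 - s / m := by ring
              rw [h5] at h4
              have h6 : (t : ℝ) * -((s : ℝ) / m) = -((t : ℝ) * s / m) := by ring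
              rw [h6] at h4
              linarith
            · rcases Nat.eq_zero_or_pos t with rfl | ht
              · simp
              · have h7 : (1 : ℝ) ≤ (t : ℝ) * s / m := by
                  have h8 : (1 : ℝ) ≤ (s : ℝ) / m := by linarith
                  have h9 : (1 : ℝ) ≤ (t : ℝ) := by exact_mod_cast ht
                  rw [mul_div_assoc]
                  nlinarith
                have h10 : (0 : ℝ) ≤ (max 0 (1 - (s : ℝ) / m)) ^ t := by positivity
                linarith
          have h11 : (0 : ℝ) ≤ m ^ t := by positivity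
          nlinarith
        · rw [min_eq_left hts, mul_one]
          have : (0 : ℝ) ≤ m ^ t * (max 0 (1 - (s : ℝ) / m)) ^ t := by positivity
          linarith
    refine le_trans (Finset.sum_le_sum (fun x _ => hx x)) ?_
    rw [Finset.sum_add_distrib, Finset.sum_const, Finset.card_univ, Fintype.card_fun, Fintype.card_fin, Fintype.card_fin,
      nsmul_eq_mul, Finset.sum_ite, Finset.sum_const_zero, zero_add, Finset.sum_const, nsmul_eq_mul]
    have hc : ((univ.filter (fun x : Fin s → Fin (k+2) => ¬ Function.Injective x)).card : ℝ) =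
        m ^ s - ((k+2).descFactorial s : ℝ) := by
      have h1 := Finset.card_filter_add_card_filter_not (s := (univ : Finset (Fin s → Fin (k+2))))
        (fun x => Function.Injective x)
      have h2 : (univ.filter (fun x : Fin s → Fin (k+2) => Function.Injective x)).card = (k+2).descFactorial s := by
        have := Fintype.card_embedding_eq (α := Fin s) (β := Fin (k+2))
        rw [← Nat.card_eq_fintype_card, ← Nat.card_congr (Equiv.subtypeInjectiveEquivEmbedding (Fin s) (Fin (k+2)))] at this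
        rw [Nat.card_eq_fintype_card, Fintype.card_subtype] at this
        simpa using this
      rw [h2] at h1
      simp only [Finset.card_univ, Fintype.card_fun, Fintype.card_fin] at h1
      have h3 : (((k+2).descFactorial s : ℕ) : ℝ) + ((univ.filter (fun x : Fin s → Fin (k+2) => ¬ Function.Injective x)).card : ℝ)
        = ((k : ℝ)+2) ^ s := by exact_mod_cast h1
      rw [hm]
      linarith
    rw [hc]
    push_cast
    rw [← hm]
    apply le_of_eq
    ring
  -- number of non-injective
  have hdf : m ^ s - ((k+2).descFactorial s : ℝ) ≤ m ^ s * ((s : ℝ) * s / m) := by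
    by_cases h : s ≤ k + 2
    · have h1 : (k + 2 - s) ^ s ≤ (k+2).descFactorial s := by
        refine le_trans ?_ (Nat.pow_sub_le_descFactorial _ _)
        exact Nat.pow_le_pow_left (by omega) _
      have h2 : (m - s) ^ s ≤ ((k+2).descFactorial s : ℝ) := by
        have : (((k + 2 - s) ^ s : ℕ) : ℝ) ≤ ((k+2).descFactorial s : ℝ) := by exact_mod_cast h1
        rw [Nat.cast_pow, Nat.cast_sub h] at this
        push_cast at this
        exact this
      have h3 : (m - s) = m * (1 + -((s : ℝ) / m)) := by field_simp; ring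
      have hsm : (s : ℝ) ≤ m := by rw [hm]; exact_mod_cast h
      have h4 := one_add_mul_le_pow (a := -((s : ℝ) / m)) (by
                have : (s : ℝ) / m ≤ 1 := by rw [div_le_one hk2]; exact hsm
                linarith) s
      have h5 : (0 : ℝ) ≤ m ^ s := by positivity
      rw [h3, mul_pow] at h2
      have h6 : m ^ s * (1 + (s : ℝ) * -((s : ℝ) / m)) ≤ m ^ s * (1 + -((s : ℝ) / m)) ^ s :=
        mul_le_mul_of_nonneg_left h4 h5
      have h7 : m ^ s * (1 + (s : ℝ) * -((s : ℝ) / m)) = m ^ s - m ^ s * ((s : ℝ) * s / m) := by ring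
      linarith
    · have h8 : (1 : ℝ) ≤ (s : ℝ) * s / m := by
        rw [le_div_iff₀ hk2]
        have : m ≤ s := by rw [hm]; have : k + 2 ≤ s := by omega
                           exact_mod_cast this
        have : (1 : ℝ) ≤ s := by exact_mod_cast hs
        nlinarith
      have h5 : (0 : ℝ) ≤ m ^ s := by positivity
      have h9 : (0 : ℝ) ≤ ((k+2).descFactorial s : ℝ) := Nat.cast_nonneg _
      nlinarith
  have hB : (max 0 (1 - (s : ℝ) / m)) ^ t ≤ (1 - 1 / m) ^ (s * t) := by
    rw [pow_mul]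
    apply pow_le_pow_left₀ (le_max_left _ _)
    apply max_le
    · have : (0 : ℝ) < 1 - 1 / m := by
        rw [sub_pos, div_lt_one hk2]; linarith
      positivity
    · have h4 := one_add_mul_le_pow (a := -(1 / m)) (by
                have : 1 / m ≤ 1 := by rw [div_le_one hk2]; linarith
                linarith) s
      have h5 : (1 : ℝ) + (s : ℝ) * -(1 / m) = 1 - s / m := by ring
      have h6 : (1 : ℝ) + -(1/m) = 1 - 1 / m := by ring
      rw [h5, h6] at h4
      exact h4
  have hmin : min 1 ((t : ℝ) * s / m) ≤ (t : ℝ) * s / m := min_le_right _ _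
  have hms : (0 : ℝ) < m ^ s := by positivity
  have hmt : (0 : ℝ) < m ^ t := by positivity
  rw [div_le_iff₀ (by positivity)]
  refine le_trans hsum ?_
  have h20 : (m ^ s - ((k+2).descFactorial s : ℝ)) * (m ^ t * min 1 ((t : ℝ) * s / m)) ≤
      (m ^ s * ((s : ℝ) * s / m)) * (m ^ t * ((t : ℝ) * s / m)) := by
    apply mul_le_mul hdf _ _ (by positivity)
    · exact mul_le_mul_of_nonneg_left hmin hmt.le
    · positivity
  have h21 : m ^ s * m ^ t * (max 0 (1 - (s : ℝ) / m)) ^ t ≤ m ^ s * m ^ t * (1 - 1 / m) ^ (s * t) :=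
    mul_le_mul_of_nonneg_left hB (by positivity)
  have h22 : (m ^ s * ((s : ℝ) * s / m)) * (m ^ t * ((t : ℝ) * s / m)) = m ^ s * m ^ t * ((s : ℝ)^3 * t / m ^ 2) := by
    ring_nf
  have h23 : (s : ℝ)^3 * t / m ^ 2 ≤ ((2 : ℝ) ^ (s * t) * (s ^ 3 * t) / ((k : ℝ) + 1) ^ 2) * (1 - 1 / m) ^ (s * t) := by
    have h24 : (s : ℝ)^3 * t / m ^ 2 ≤ (s : ℝ)^3 * t / ((k : ℝ) + 1) ^ 2 := by
      apply div_le_div_of_nonneg_left (by positivity) (by positivity)
      apply pow_le_pow_left₀ (by positivity)
      rw [hm]; linarith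
    refine le_trans h24 ?_
    have h25 : (s : ℝ)^3 * t / ((k : ℝ) + 1) ^ 2 = ((2 : ℝ) ^ (s * t) * (s ^ 3 * t) / ((k : ℝ) + 1) ^ 2) * (1 / 2 ^ (s * t)) := by
      field_simp
    rw [h25]
    apply mul_le_mul_of_nonneg_left hden2 (by positivity)
  calc _ ≤ m ^ s * m ^ t * (1 - 1 / m) ^ (s * t) + m ^ s * m ^ t * ((s : ℝ)^3 * t / m ^ 2) := by
        rw [← h22]; linarith
    _ ≤ m ^ s * m ^ t * (1 - 1 / m) ^ (s * t) + m ^ s * m ^ t * (((2 : ℝ) ^ (s * t) * (s ^ 3 * t) / ((k : ℝ) + 1) ^ 2) * (1 - 1 / m) ^ (s * t)) := by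
        have := mul_le_mul_of_nonneg_left h23 (show (0 : ℝ) ≤ m ^ s * m ^ t by positivity)
        linarith
    _ = _ := by
        rw [pow_add]
        ring

end Pool.Agent.Q265.BR
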